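import Pool.Agent.Helper54.Cover.Final

/-!
`MP_5da84a_co`: the constants `c_k` forcing `k`-edge-connectivity of the distance graph of a
covering arrangement of discs.
-/

namespace Pool.Agent.Results.MP_5da84a_co.CriticalConstants

open CoverConn

/-- For every radius `r > 0` and every `k ≥ 1`, the set of all `c` such that `G_c(P)` is
`k`-edge-connected for every covering arrangement `P` is the open ray `(1 + ρ_{k-1}, ∞)`, where
`ρ_m` is the largest radius of a closed disc about the origin covered by the closed unit disc about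
the origin and `m` further closed unit discs. So `c_k = 1 + ρ_{k-1}` is finite and the infimum is
never attained. Explicit values for `k ≤ 10`, and `c_k = √(3√3 k / 2π) + O(1)`. -/
theorem result (r : ℝ) (hr : 0 < r) :
    (∀ k : ℕ, 1 ≤ k → goodSet r k = Set.Ioi (1 + sSup (radii (k - 1)))) ∧
    (∀ k : ℕ, 1 ≤ k → sInf (goodSet r k) = 1 + sSup (radii (k - 1)) ∧
      sSup (radii (k - 1)) ∈ radii (k - 1) ∧ BddAbove (radii (k - 1)) ∧
      sInf (goodSet r k) ∉ goodSet r k) ∧
    (∀ k : ℕ, 1 ≤ k → k ≤ 3 → sInf (goodSet r k) = 2) ∧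
    (∀ k : ℕ, 4 ≤ k → k ≤ 7 → sInf (goodSet r k) = 1 + 1 / Real.sin (Real.pi / (k - 1))) ∧
    (∀ k : ℕ, 8 ≤ k → k ≤ 10 → sInf (goodSet r k) = 4 * Real.cos (Real.pi / (k - 1)) ^ 2) ∧
    (∀ k : ℕ, 1 ≤ k → |sInf (goodSet r k) - √(3 * √3 * k / (2 * Real.pi))| ≤ 3) :=
  ⟨fun _ hk => goodSet_eq hr hk,
    fun k hk => ⟨sInf_goodSet hr hk, sSup_mem_radii (k - 1), radii_bddAbove (k - 1),
      sInf_notMem hr hk⟩,
    fun _ hk hk3 => value_small hr hk hk3, fun _ hk hk7 => value_mid hr hk hk7,
    fun _ hk hk10 => value_high hr hk hk10, fun _ hk => value_bounds hr hk⟩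

end Pool.Agent.Results.MP_5da84a_co.CriticalConstants
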